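import Pool.Agent.Helper37.DG.Stmts

set_option autoImplicit false

namespace Pool.Agent.Helper45.DG

open Finset
open scoped Classical
open Pool.Agent.Helper37.DG

/-- the terms of the tail -/
noncomputable def tt (S : ℝ) (n : ℕ) : ℝ := S ^ (2 * n + 1) / ((2 * n + 1).factorial : ℝ)

theorem tt_nonneg (S : ℝ) (hS : 0 < S) (n : ℕ) : 0 ≤ tt S n := by
  unfold tt; positivity

theorem exists_beta (S δ : ℝ) (hS : 0 < S) (hδ : 0 < δ) :
    ∃ β : ℕ, ∀ K : ℕ, ∑ m ∈ range K, tt S (β + m) ≤ δ := by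
  have hsum := Real.summable_pow_div_factorial S
  have ht := tendsto_sum_nat_add (fun n : ℕ => S ^ n / (n.factorial : ℝ))
  obtain ⟨i0, hi0⟩ := Filter.eventually_atTop.1 (ht.eventually_le_const hδ)
  refine ⟨i0, fun K => ?_⟩
  have h1 : ∀ K : ℕ, ∑ m ∈ range K, tt S (i0 + m) ≤
      ∑ k ∈ range (2 * K), S ^ (k + (2 * i0 + 1)) / ((k + (2 * i0 + 1)).factorial : ℝ) := by
    intro K
    induction K with
    | zero => simp
    | succ K ih =>
      rw [show 2 * (K + 1) = (2 * K + 1) + 1 from by ring, sum_range_succ, sum_range_succ,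
        sum_range_succ]
      have e1 : tt S (i0 + K) =
          S ^ (2 * K + (2 * i0 + 1)) / ((2 * K + (2 * i0 + 1)).factorial : ℝ) := by
        unfold tt
        rw [show 2 * (i0 + K) + 1 = 2 * K + (2 * i0 + 1) from by ring]
      have e2 : 0 ≤ S ^ (2 * K + 1 + (2 * i0 + 1)) /
          ((2 * K + 1 + (2 * i0 + 1)).factorial : ℝ) := by positivity
      linarith
  refine (h1 K).trans ?_
  have h2 := hi0 (2 * i0 + 1) (by omega)
  refine le_trans ?_ h2
  have hs : Summable (fun k : ℕ => S ^ (k + (2 * i0 + 1)) /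
      ((k + (2 * i0 + 1)).factorial : ℝ)) := (summable_nat_add_iff (2 * i0 + 1)).2 hsum
  exact hs.sum_le_tsum _ (fun k _ => by positivity)

theorem split_biUnion (K : ℕ) (B : ℕ → Finset ℕ) (T : Finset ℕ) (hT : T ⊆ un K B) :
    (range K).biUnion (fun m => T ∩ B m) = T := by
  ext p
  simp only [mem_biUnion, mem_range, mem_inter]
  constructor
  · rintro ⟨m, _, h, _⟩; exact h
  · intro h
    have := hT h
    simp only [un, mem_biUnion, mem_range] at this
    obtain ⟨m, hm, hp⟩ := this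
    exact ⟨m, hm, h, hp⟩

theorem prod_split {M : Type} [CommMonoid M] (K : ℕ) (B : ℕ → Finset ℕ) (hD : Dsj K B)
    (T : Finset ℕ) (hT : T ⊆ un K B) (f : ℕ → M) :
    ∏ p ∈ T, f p = ∏ m ∈ range K, ∏ p ∈ T ∩ B m, f p := by
  conv_lhs => rw [← split_biUnion K B T hT]
  rw [prod_biUnion]
  intro m hm m' hm' hne
  have := hD m (by simpa using hm) m' (by simpa using hm') hne
  exact disjoint_of_subset_left inter_subset_right (disjoint_of_subset_right inter_subset_right this)

theorem card_split (K : ℕ) (B : ℕ → Finset ℕ) (hD : Dsj K B)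
    (T : Finset ℕ) (hT : T ⊆ un K B) :
    T.card = ∑ m ∈ range K, (T ∩ B m).card := by
  conv_lhs => rw [← split_biUnion K B T hT]
  rw [card_biUnion]
  intro m hm m' hm' hne
  have := hD m (by simpa using hm) m' (by simpa using hm') hne
  exact disjoint_of_subset_left inter_subset_right (disjoint_of_subset_right inter_subset_right this)

theorem sub_iff (K : ℕ) (B : ℕ → Finset ℕ) (U T : Finset ℕ) (hU : U ⊆ un K B) :
    U ⊆ T ↔ ∀ m ∈ range K, U ∩ B m ⊆ T ∩ B m := by
  constructor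
  · intro h m _
    exact inter_subset_inter h (Subset.refl _)
  · intro h p hp
    have := hU hp
    simp only [un, mem_biUnion] at this
    obtain ⟨m, hm, hpB⟩ := this
    exact (mem_inter.1 (h m hm (mem_inter.2 ⟨hp, hpB⟩))).1

/-- the blockwise sums -/
noncomputable def Fs (β : ℕ) (B : ℕ → Finset ℕ) (U : Finset ℕ) (m : ℕ) (T : Finset ℕ) : ℝ :=
  if U ∩ B m ⊆ T then al (β + m) T / pr T else 0

noncomputable def Gs (β : ℕ) (B : ℕ → Finset ℕ) (U : Finset ℕ) (m : ℕ) (T : Finset ℕ) : ℝ :=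
  if U ∩ B m ⊆ T then be (β + m) T / pr T else 0

theorem pointwise (K : ℕ) (B : ℕ → Finset ℕ) (β : ℕ) (hD : Dsj K B)
    (hpos : ∀ m < K, ∀ p ∈ B m, 2 ≤ p) (U : Finset ℕ) (hU : U ⊆ un K B) (T : Finset ℕ)
    (hT : T ⊆ un K B) :
    (if U ⊆ T then Lam K B β T / pr T else 0) =
      ∏ m ∈ range K, Fs β B U m (T ∩ B m) -
      ∑ m ∈ range K, Gs β B U m (T ∩ B m) * ∏ i ∈ (range K).erase m, Fs β B U i (T ∩ B i) := by
  by_cases h : U ⊆ T
  · rw [if_pos h]
    have hs := (sub_iff K B U T hU).1 h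
    have hF : ∀ m ∈ range K, Fs β B U m (T ∩ B m) = al (β + m) (T ∩ B m) / pr (T ∩ B m) :=
      fun m hm => by unfold Fs; rw [if_pos (hs m hm)]
    have hG : ∀ m ∈ range K, Gs β B U m (T ∩ B m) = be (β + m) (T ∩ B m) / pr (T ∩ B m) :=
      fun m hm => by unfold Gs; rw [if_pos (hs m hm)]
    have hq : ∀ m ∈ range K, ((pr (T ∩ B m) : ℕ) : ℝ) ≠ 0 := by
      intro m hm
      have : 0 < pr (T ∩ B m) := by
        unfold pr
        refine prod_pos fun p hp => ?_
        have := hpos m (by simpa using hm) p (mem_inter.1 hp).2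
        omega
      positivity
    have hpr : (pr T : ℝ) = ∏ m ∈ range K, ((pr (T ∩ B m) : ℕ) : ℝ) := by
      have := prod_split K B hD T hT (fun p => p)
      unfold pr
      rw [this]
      push_cast
      rfl
    rw [prod_congr rfl hF, prod_div_distrib, ← hpr]
    have hsum : ∑ m ∈ range K, Gs β B U m (T ∩ B m) *
        ∏ i ∈ (range K).erase m, Fs β B U i (T ∩ B i) =
        ∑ m ∈ range K, (be (β + m) (T ∩ B m) *
          ∏ i ∈ (range K).erase m, al (β + i) (T ∩ B i)) / pr T := by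
      refine sum_congr rfl fun m hm => ?_
      rw [hG m hm, prod_congr rfl (fun i hi => hF i (mem_of_mem_erase hi)), prod_div_distrib,
        hpr, ← mul_prod_erase (range K) (fun m => ((pr (T ∩ B m) : ℕ) : ℝ)) hm]
      rw [div_mul_div_comm]
    rw [hsum, ← sum_div, ← sub_div]
    rfl
  · rw [if_neg h]
    have : ¬ ∀ m ∈ range K, U ∩ B m ⊆ T ∩ B m := fun h' => h ((sub_iff K B U T hU).2 h')
    push Not at this
    obtain ⟨m0, hm0, hn⟩ := this
    have hF0 : Fs β B U m0 (T ∩ B m0) = 0 := by unfold Fs; rw [if_neg hn]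
    have hG0 : Gs β B U m0 (T ∩ B m0) = 0 := by unfold Gs; rw [if_neg hn]
    rw [prod_eq_zero hm0 hF0]
    rw [sum_eq_zero]
    · simp
    · intro m hm
      by_cases hmm : m = m0
      · subst hmm; rw [hG0, zero_mul]
      · rw [prod_eq_zero (mem_erase.2 ⟨fun h' => hmm h'.symm, hm0⟩) hF0, mul_zero]

theorem total (hPF : ST_PF) (K : ℕ) (B : ℕ → Finset ℕ) (β : ℕ) (hD : Dsj K B)
    (hpos : ∀ m < K, ∀ p ∈ B m, 2 ≤ p) (U : Finset ℕ) (hU : U ⊆ un K B) :
    ∑ T ∈ (un K B).powerset.filter (fun T => U ⊆ T), Lam K B β T / pr T =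
      ∏ m ∈ range K, (∑ T ∈ (B m).powerset, Fs β B U m T) -
      ∑ m ∈ range K, (∑ T ∈ (B m).powerset, Gs β B U m T) *
        ∏ i ∈ (range K).erase m, (∑ T ∈ (B i).powerset, Fs β B U i T) := by
  rw [sum_filter, sum_congr rfl (fun T hT => pointwise K B β hD hpos U hU T (mem_powerset.1 hT)),
    sum_sub_distrib, hPF K B (Fs β B U) hD, sum_comm]
  congr 1
  refine sum_congr rfl fun m hm => ?_
  have h1 := hPF K B (fun i T => if i = m then Gs β B U m T else Fs β B U i T) hD
  rw [← mul_prod_erase (range K) (fun i => ∑ T ∈ (B i).powerset,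
    (if i = m then Gs β B U m T else Fs β B U i T)) hm] at h1
  rw [show (∑ T ∈ (B m).powerset, Gs β B U m T) *
        ∏ i ∈ (range K).erase m, (∑ T ∈ (B i).powerset, Fs β B U i T) =
      (∑ T ∈ (B m).powerset, (if m = m then Gs β B U m T else Fs β B U m T)) *
      ∏ x ∈ (range K).erase m, ∑ T ∈ (B x).powerset,
        (if x = m then Gs β B U m T else Fs β B U x T) from ?_, ← h1]
  · refine sum_congr rfl fun T _ => ?_
    rw [← mul_prod_erase (range K) (fun i => (if i = m then Gs β B U m (T ∩ B i)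
      else Fs β B U i (T ∩ B i))) hm]
    rw [if_pos rfl]
    congr 1
    refine prod_congr rfl fun i hi => ?_
    rw [if_neg (ne_of_mem_erase hi)]
  · rw [sum_congr rfl (fun T _ => if_pos rfl)]
    congr 1
    refine prod_congr rfl fun i hi => ?_
    refine sum_congr rfl fun T _ => ?_
    rw [if_neg (ne_of_mem_erase hi)]

theorem block (hSVB : ST_SVB) (hVSW : ST_VSW) (S : ℝ) (hS : 0 < S) (K : ℕ) (B : ℕ → Finset ℕ)
    (β : ℕ) (hpos : ∀ m < K, ∀ p ∈ B m, 2 ≤ p) (hsum : ∀ m < K, ∑ p ∈ B m, 1 / (p : ℝ) ≤ S)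
    (m : ℕ) (hm : m < K) :
    Real.exp (-2 * S) ≤ ∏ p ∈ B m, (1 - 1 / (p : ℝ)) ∧
    (∏ p ∈ B m, (1 - 1 / (p : ℝ)) ≤ ∑ T ∈ (B m).powerset, Fs β B ∅ m T) ∧
    (0 ≤ ∑ T ∈ (B m).powerset, Gs β B ∅ m T) ∧
    (∑ T ∈ (B m).powerset, Gs β B ∅ m T ≤ tt S (β + m)) ∧
    ∀ U : Finset ℕ,
      |∑ T ∈ (B m).powerset, Fs β B U m T| ≤ (∏ p ∈ B m, (1 - 1 / (p : ℝ))) *
        (1 + tt S (β + m) * Real.exp (2 * S)) * Real.exp (3 * S) ^ (U ∩ B m).card /
          (pr (U ∩ B m) : ℝ) ∧
      |∑ T ∈ (B m).powerset, Gs β B U m T| ≤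
        (tt S (β + m) * Real.exp (2 * S) + (U ∩ B m).card) *
        ((∏ p ∈ B m, (1 - 1 / (p : ℝ))) *
        (1 + tt S (β + m) * Real.exp (2 * S)) * Real.exp (3 * S) ^ (U ∩ B m).card /
          (pr (U ∩ B m) : ℝ)) := by
  obtain ⟨C0, hC0, hV⟩ := hVSW
  obtain ⟨h1, h2, h3, h4, h5⟩ := hSVB S (B m) (β + m) hS (hpos m hm) (hsum m hm)
  have hlow : Real.exp (-2 * S) ≤ ∏ p ∈ B m, (1 - 1 / (p : ℝ)) := by
    refine le_trans ?_ (hV (B m) (hpos m hm)).2.2
    apply Real.exp_le_exp.2
    have := hsum m hm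
    nlinarith
  set V := ∏ p ∈ B m, (1 - 1 / (p : ℝ)) with hVdef
  set t := tt S (β + m) with ht
  have htt : S ^ (2 * (β + m) + 1) / ((2 * (β + m) + 1).factorial : ℝ) = t := rfl
  rw [htt] at h2 h4
  have ht0 : 0 ≤ t := tt_nonneg S hS _
  have hVpos : 0 < V := lt_of_lt_of_le (Real.exp_pos _) hlow
  have hVe : 1 ≤ V * Real.exp (2 * S) := by
    have : Real.exp (-2 * S) * Real.exp (2 * S) = 1 := by
      rw [← Real.exp_add]; simp
    rw [← this]
    exact mul_le_mul_of_nonneg_right hlow (Real.exp_pos _).le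
  have hF0 : ∑ T ∈ (B m).powerset, Fs β B ∅ m T = ∑ T ∈ (B m).powerset, al (β + m) T / pr T := by
    refine sum_congr rfl fun T _ => ?_
    unfold Fs; rw [if_pos (by simp)]
  have hG0 : ∑ T ∈ (B m).powerset, Gs β B ∅ m T = ∑ T ∈ (B m).powerset, be (β + m) T / pr T := by
    refine sum_congr rfl fun T _ => ?_
    unfold Gs; rw [if_pos (by simp)]
  refine ⟨hlow, by rw [hF0]; exact h1, by rw [hG0]; exact h3, by rw [hG0]; exact h4, ?_⟩
  intro U
  have e1 : (1 : ℝ) ≤ 1 + t * Real.exp (2 * S) := by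
    have : 0 ≤ t * Real.exp (2 * S) := by positivity
    linarith
  have e3 : (1 : ℝ) ≤ Real.exp (3 * S) := Real.one_le_exp (by linarith)
  by_cases hU : U ∩ B m = ∅
  · have hF : ∑ T ∈ (B m).powerset, Fs β B U m T = ∑ T ∈ (B m).powerset, al (β + m) T / pr T := by
      refine sum_congr rfl fun T _ => ?_
      unfold Fs; rw [if_pos (by rw [hU]; simp)]
    have hG : ∑ T ∈ (B m).powerset, Gs β B U m T = ∑ T ∈ (B m).powerset, be (β + m) T / pr T := by
      refine sum_congr rfl fun T _ => ?_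
      unfold Gs; rw [if_pos (by rw [hU]; simp)]
    rw [hF, hG, hU]
    have hpr : ((pr ∅ : ℕ) : ℝ) = 1 := by simp [pr]
    rw [hpr]
    simp only [card_empty, pow_zero, mul_one, div_one, Nat.cast_zero, add_zero]
    have hb : V + t ≤ V * (1 + t * Real.exp (2 * S)) := by nlinarith
    constructor
    · rw [abs_of_nonneg (hVpos.le.trans h1)]
      linarith
    · rw [abs_of_nonneg h3]
      calc ∑ T ∈ (B m).powerset, be (β + m) T / (pr T : ℝ) ≤ t := h4
        _ ≤ t * Real.exp (2 * S) * V := by nlinarith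
        _ ≤ t * Real.exp (2 * S) * (V * (1 + t * Real.exp (2 * S))) := by
          apply mul_le_mul_of_nonneg_left _ (by positivity)
          nlinarith
  · have hc : 1 ≤ (U ∩ B m).card := card_pos.2 (nonempty_iff_ne_empty.2 hU)
    have hc' : (1 : ℝ) ≤ ((U ∩ B m).card : ℝ) := by exact_mod_cast hc
    obtain ⟨g1, g2⟩ := h5 (U ∩ B m) inter_subset_right
    have hq : (0 : ℝ) < (pr (U ∩ B m) : ℝ) := by
      have : 0 < pr (U ∩ B m) := by
        unfold pr
        refine prod_pos fun p hp => ?_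
        have := hpos m hm p (mem_inter.1 hp).2
        omega
      exact_mod_cast this
    rw [sum_filter] at g1 g2
    have hb : Real.exp S / (pr (U ∩ B m) : ℝ) ≤ V * (1 + t * Real.exp (2 * S)) *
        Real.exp (3 * S) ^ (U ∩ B m).card / (pr (U ∩ B m) : ℝ) := by
      apply div_le_div_of_nonneg_right _ hq.le
      have a1 : Real.exp S ≤ V * Real.exp (3 * S) := by
        have : Real.exp (3 * S) = Real.exp (2 * S) * Real.exp S := by
          rw [← Real.exp_add]; ring_nf
        rw [this, ← mul_assoc]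
        nlinarith [Real.exp_pos S]
      have a2 : Real.exp (3 * S) ≤ Real.exp (3 * S) ^ (U ∩ B m).card :=
        le_self_pow₀ e3 (by omega)
      calc Real.exp S ≤ V * Real.exp (3 * S) := a1
        _ ≤ V * Real.exp (3 * S) ^ (U ∩ B m).card := mul_le_mul_of_nonneg_left a2 hVpos.le
        _ = V * 1 * Real.exp (3 * S) ^ (U ∩ B m).card := by ring
        _ ≤ V * (1 + t * Real.exp (2 * S)) * Real.exp (3 * S) ^ (U ∩ B m).card := by
          apply mul_le_mul_of_nonneg_right _ (by positivity)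
          exact mul_le_mul_of_nonneg_left e1 hVpos.le
    constructor
    · exact g1.trans hb
    · refine g2.trans (hb.trans ?_)
      have hM : 0 ≤ V * (1 + t * Real.exp (2 * S)) *
        Real.exp (3 * S) ^ (U ∩ B m).card / (pr (U ∩ B m) : ℝ) := by
        have : 0 ≤ 1 + t * Real.exp (2 * S) := by linarith
        positivity
      have : (1 : ℝ) ≤ t * Real.exp (2 * S) + ((U ∩ B m).card : ℝ) := by
        have : 0 ≤ t * Real.exp (2 * S) := by positivity
        linarith
      nlinarith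

theorem st_SV3 (hPF : ST_PF) (hSVB : ST_SVB) (hVSW : ST_VSW) : ST_SV3 := by
  intro S hS
  obtain ⟨β, hβ⟩ := exists_beta S (Real.exp (-2 * S) / 2) hS (by positivity)
  obtain ⟨C0, hC0, hV0⟩ := hVSW
  refine ⟨β, max (⌈2 * C0⌉₊) (max (⌈(2 * Real.exp (3 * S)) ^ 2⌉₊) 4), ?_, ?_⟩
  · exact le_trans (by norm_num) (le_trans (le_max_right _ 4) (le_max_right _ _))
  intro K B hD hC hsum
  set C := max (⌈2 * C0⌉₊) (max (⌈(2 * Real.exp (3 * S)) ^ 2⌉₊) 4) with hCdef
  have hC4 : 4 ≤ C := le_trans (le_max_right _ 4) (le_max_right _ _)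
  have hC1 : 2 * C0 ≤ (C : ℝ) := (Nat.le_ceil _).trans (by exact_mod_cast le_max_left _ _)
  have hC2 : (2 * Real.exp (3 * S)) ^ 2 ≤ (C : ℝ) :=
    (Nat.le_ceil _).trans (by
      exact_mod_cast le_trans (le_max_left _ 4) (le_max_right (⌈2 * C0⌉₊) _))
  have hpos : ∀ m < K, ∀ p ∈ B m, 2 ≤ p := fun m hm p hp => by
    have := hC m hm p hp
    omega
  have hposU : ∀ p ∈ un K B, 2 ≤ p := fun p hp => by
    simp only [un, mem_biUnion, mem_range] at hp
    obtain ⟨m, hm, hpB⟩ := hp
    exact hpos m hm p hpB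
  have hCU : ∀ p ∈ un K B, C ≤ p := fun p hp => by
    simp only [un, mem_biUnion, mem_range] at hp
    obtain ⟨m, hm, hpB⟩ := hp
    exact hC m hm p hpB
  have hbl := block hSVB ⟨C0, hC0, hV0⟩ S hS K B β hpos hsum
  have hself : ∀ m ∈ range K, un K B ∩ B m = B m := fun m hm => by
    apply inter_eq_right.2
    intro p hp
    simp only [un, mem_biUnion]
    exact ⟨m, hm, hp⟩
  have hVprod : ∏ p ∈ un K B, (1 - 1 / (p : ℝ)) =
      ∏ m ∈ range K, ∏ p ∈ B m, (1 - 1 / (p : ℝ)) := by
    rw [prod_split K B hD (un K B) (Subset.refl _) (fun p => (1 - 1 / (p : ℝ)))]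
    exact prod_congr rfl fun m hm => by rw [hself m hm]
  obtain ⟨hs1, hs2, _⟩ := hV0 (un K B) hposU
  set V := ∏ p ∈ un K B, (1 - 1 / (p : ℝ)) with hVdef
  have hVm : ∀ m ∈ range K, 0 < ∏ p ∈ B m, (1 - 1 / (p : ℝ)) := fun m hm =>
    lt_of_lt_of_le (Real.exp_pos _) (hbl m (by simpa using hm)).1
  have hVpos : 0 < V := by rw [hVprod]; exact prod_pos hVm
  have hee : Real.exp (-2 * S) * Real.exp (2 * S) = 1 := by rw [← Real.exp_add]; simp
  have htail : ∑ m ∈ range K, tt S (β + m) * Real.exp (2 * S) ≤ 1 / 2 := by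
    rw [← sum_mul]
    have := mul_le_mul_of_nonneg_right (hβ K) (Real.exp_pos (2 * S)).le
    nlinarith
  constructor
  · have htot := total hPF K B β hD hpos ∅ (by simp)
    have hfil : ∑ T ∈ (un K B).powerset.filter (fun T => ∅ ⊆ T), Lam K B β T / (pr T : ℝ) =
        ∑ T ∈ (un K B).powerset, Lam K B β T / (pr T : ℝ) := by
      apply sum_congr _ (fun _ _ => rfl)
      ext T; simp
    rw [hfil] at htot
    rw [htot]
    have hEpos : ∀ m ∈ range K, 0 < ∑ T ∈ (B m).powerset, Fs β B ∅ m T := fun m hm =>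
      lt_of_lt_of_le (hVm m hm) (hbl m (by simpa using hm)).2.1
    have hEV : V ≤ ∏ m ∈ range K, ∑ T ∈ (B m).powerset, Fs β B ∅ m T := by
      rw [hVprod]
      exact prod_le_prod (fun m hm => (hVm m hm).le) (fun m hm =>
        (hbl m (by simpa using hm)).2.1)
    have hE0 : 0 < ∏ m ∈ range K, ∑ T ∈ (B m).powerset, Fs β B ∅ m T := prod_pos hEpos
    have hterm : ∀ m ∈ range K, (∑ T ∈ (B m).powerset, Gs β B ∅ m T) *
        ∏ i ∈ (range K).erase m, (∑ T ∈ (B i).powerset, Fs β B ∅ i T) ≤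
        (tt S (β + m) * Real.exp (2 * S)) *
          ∏ m ∈ range K, ∑ T ∈ (B m).powerset, Fs β B ∅ m T := by
      intro m hm
      obtain ⟨q1, q2, q3, q4, _⟩ := hbl m (by simpa using hm)
      rw [← mul_prod_erase (range K) (fun i => ∑ T ∈ (B i).powerset, Fs β B ∅ i T) hm,
        ← mul_assoc]
      apply mul_le_mul_of_nonneg_right _
        (prod_nonneg fun i hi => (hEpos i (mem_of_mem_erase hi)).le)
      have r1 : Real.exp (-2 * S) ≤ ∑ T ∈ (B m).powerset, Fs β B ∅ m T := q1.trans q2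
      have ht0 := tt_nonneg S hS (β + m)
      calc ∑ T ∈ (B m).powerset, Gs β B ∅ m T ≤ tt S (β + m) := q4
        _ = tt S (β + m) * Real.exp (2 * S) * Real.exp (-2 * S) := by
          rw [mul_assoc, mul_comm (Real.exp (2 * S)), hee, mul_one]
        _ ≤ _ := mul_le_mul_of_nonneg_left r1 (by positivity)
    have hsumle := sum_le_sum hterm
    rw [← sum_mul] at hsumle
    have h2 := mul_le_mul_of_nonneg_right htail hE0.le
    have h3 : V / 2 ≤ ∏ m ∈ range K, ∑ T ∈ (B m).powerset, Fs β B ∅ m T -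
        ∑ m ∈ range K, (∑ T ∈ (B m).powerset, Gs β B ∅ m T) *
        ∏ i ∈ (range K).erase m, (∑ T ∈ (B i).powerset, Fs β B ∅ i T) := by linarith
    calc sw (un K B) ≤ C0 * V := hs2
      _ = 2 * C0 * (V / 2) := by ring
      _ ≤ C * (V / 2) := mul_le_mul_of_nonneg_right hC1 (by positivity)
      _ ≤ _ := mul_le_mul_of_nonneg_left h3 (by positivity)
  · intro U hU
    rw [total hPF K B β hD hpos U hU]
    set A : ℕ → ℝ := fun m => ∑ T ∈ (B m).powerset, Fs β B U m T with hA
    set G : ℕ → ℝ := fun m => ∑ T ∈ (B m).powerset, Gs β B U m T with hG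
    set M : ℕ → ℝ := fun m => (∏ p ∈ B m, (1 - 1 / (p : ℝ))) *
        (1 + tt S (β + m) * Real.exp (2 * S)) * Real.exp (3 * S) ^ (U ∩ B m).card /
          (pr (U ∩ B m) : ℝ) with hMdef
    set r : ℕ → ℝ := fun m => tt S (β + m) * Real.exp (2 * S) + (U ∩ B m).card with hr
    have hAb : ∀ m ∈ range K, |A m| ≤ M m := fun m hm =>
      ((hbl m (by simpa using hm)).2.2.2.2 U).1
    have hGb : ∀ m ∈ range K, |G m| ≤ r m * M m := fun m hm =>
      ((hbl m (by simpa using hm)).2.2.2.2 U).2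
    have hM0 : ∀ m ∈ range K, 0 ≤ M m := fun m hm => (abs_nonneg _).trans (hAb m hm)
    have hr0 : ∀ m ∈ range K, 0 ≤ r m := fun m hm => by
      have := tt_nonneg S hS (β + m)
      simp only [hr]; positivity
    have hrs : ∑ m ∈ range K, r m ≤ 1 / 2 + U.card := by
      rw [hr, sum_add_distrib]
      have : ((U.card : ℕ) : ℝ) = ∑ m ∈ range K, (((U ∩ B m).card : ℕ) : ℝ) := by
        rw [card_split K B hD U hU]; push_cast; rfl
      rw [this]
      linarith
    have hb1 : |∏ m ∈ range K, A m| ≤ ∏ m ∈ range K, M m := by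
      rw [abs_prod]
      exact prod_le_prod (fun _ _ => abs_nonneg _) hAb
    have hb2 : |∑ m ∈ range K, G m * ∏ i ∈ (range K).erase m, A i| ≤
        (∑ m ∈ range K, r m) * ∏ m ∈ range K, M m := by
      rw [sum_mul]
      refine (abs_sum_le_sum_abs _ _).trans (sum_le_sum fun m hm => ?_)
      rw [abs_mul, abs_prod, ← mul_prod_erase (range K) M hm, ← mul_assoc]
      exact mul_le_mul (hGb m hm) (prod_le_prod (fun _ _ => abs_nonneg _)
        (fun i hi => hAb i (mem_of_mem_erase hi))) (prod_nonneg fun _ _ => abs_nonneg _)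
        (mul_nonneg (hr0 m hm) (hM0 m hm))
    have hMP : ∏ m ∈ range K, M m = V * (∏ m ∈ range K,
        (1 + tt S (β + m) * Real.exp (2 * S))) * Real.exp (3 * S) ^ U.card / (pr U : ℝ) := by
      rw [hMdef, prod_div_distrib, prod_mul_distrib, prod_mul_distrib, ← hVprod,
        prod_pow_eq_pow_sum, ← card_split K B hD U hU]
      congr 1
      have := prod_split K B hD U hU (fun p => p)
      unfold pr
      rw [this]
      push_cast
      rfl
    have hX : ∏ m ∈ range K, (1 + tt S (β + m) * Real.exp (2 * S)) ≤ 2 := by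
      have h1 : ∏ m ∈ range K, (1 + tt S (β + m) * Real.exp (2 * S)) ≤
          Real.exp (∑ m ∈ range K, tt S (β + m) * Real.exp (2 * S)) := by
        rw [Real.exp_sum]
        apply prod_le_prod
        · intro m _
          have := tt_nonneg S hS (β + m)
          positivity
        · intro m _
          have := Real.add_one_le_exp (tt S (β + m) * Real.exp (2 * S))
          linarith
      have h2 : Real.exp (∑ m ∈ range K, tt S (β + m) * Real.exp (2 * S)) ≤ Real.exp (1 / 2) :=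
        Real.exp_le_exp.2 htail
      have h3 : Real.exp (1 / 2) ≤ 2 := by
        have h4 : Real.exp (1 / 2) * Real.exp (1 / 2) = Real.exp 1 := by
          rw [← Real.exp_add]; norm_num
        have h5 := Real.exp_one_lt_d9
        nlinarith [Real.exp_pos (1 / 2)]
      linarith
    have hprU : (0 : ℝ) < (pr U : ℝ) := by
      have : 0 < pr U := by
        unfold pr
        refine prod_pos fun p hp => ?_
        have := hposU p (hU hp)
        omega
      exact_mod_cast this
    have hsq : (2 * Real.exp (3 * S)) ^ U.card ≤ Real.sqrt (pr U) := by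
      apply Real.le_sqrt_of_sq_le
      have e1 : ((2 * Real.exp (3 * S)) ^ U.card) ^ 2 =
          ∏ _p ∈ U, (2 * Real.exp (3 * S)) ^ 2 := by
        rw [prod_const, ← pow_mul, ← pow_mul, Nat.mul_comm U.card 2]
      rw [e1]
      unfold pr
      push_cast
      apply prod_le_prod
      · intro p _; positivity
      · intro p hp
        refine hC2.trans ?_
        exact_mod_cast hCU p (hU hp)
    have hcard : (1 + (U.card : ℝ)) ≤ 2 ^ U.card := by
      have := one_add_mul_le_pow (a := (1 : ℝ)) (by norm_num) U.card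
      norm_num at this
      exact this
    calc |∏ m ∈ range K, A m - ∑ m ∈ range K, G m * ∏ i ∈ (range K).erase m, A i| ≤
        |∏ m ∈ range K, A m| + |∑ m ∈ range K, G m * ∏ i ∈ (range K).erase m, A i| :=
          abs_sub _ _
      _ ≤ ∏ m ∈ range K, M m + (∑ m ∈ range K, r m) * ∏ m ∈ range K, M m := add_le_add hb1 hb2
      _ = (1 + ∑ m ∈ range K, r m) * ∏ m ∈ range K, M m := by ring
      _ ≤ (2 * (1 + (U.card : ℝ))) * ∏ m ∈ range K, M m := by
          apply mul_le_mul_of_nonneg_right _ (prod_nonneg hM0)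
          have : (0 : ℝ) ≤ U.card := by positivity
          linarith
      _ ≤ (2 * 2 ^ U.card) * (V * 2 * Real.exp (3 * S) ^ U.card / (pr U : ℝ)) := by
          rw [hMP]
          apply mul_le_mul _ _ _ (by positivity)
          · linarith
          · apply div_le_div_of_nonneg_right _ hprU.le
            apply mul_le_mul_of_nonneg_right _ (by positivity)
            exact mul_le_mul_of_nonneg_left hX hVpos.le
          · rw [← hMP]; exact prod_nonneg hM0
      _ = 4 * V * (2 * Real.exp (3 * S)) ^ U.card / (pr U : ℝ) := by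
          rw [mul_pow]; ring
      _ ≤ 4 * V * Real.sqrt (pr U) / (pr U : ℝ) := by
          apply div_le_div_of_nonneg_right _ hprU.le
          exact mul_le_mul_of_nonneg_left hsq (by positivity)
      _ = 4 * V / Real.sqrt (pr U) := by
          have hs := Real.sqrt_pos.2 hprU
          have hs2 := Real.mul_self_sqrt hprU.le
          rw [div_eq_div_iff hprU.ne' hs.ne']
          rw [mul_assoc, hs2]
      _ ≤ C * sw (un K B) / Real.sqrt (pr U) := by
          apply div_le_div_of_nonneg_right _ (Real.sqrt_nonneg _)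
          have h4 : (4 : ℝ) ≤ C := by exact_mod_cast hC4
          exact mul_le_mul h4 hs1 hVpos.le (by positivity)

end Pool.Agent.Helper45.DG
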